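import Pool.Agent.Helper79.GL4.GoalsB

/-!
# SP2 (MP_27a5f8_al): the spread is geometric, and `a` divides the dimension
-/

set_option linter.unusedVariables false

namespace GL4

open Module Submodule

namespace SP2proof

variable {F : Type} [Field F] {W : Type} [AddCommGroup W] [Module F W]

/-- `U` is a union of spread elements -/
def Cl (N : Submodule F W → Submodule F W) (U : Submodule F W) : Prop :=
  ∀ u, Pt u → u ≤ U → N u ≤ U

theorem disj [FiniteDimensional F W] {a : ℕ} {B N D : Submodule F W → Submodule F W}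
    (h : SG a B N D) {x y : Submodule F W} (hx : Pt x) (hy : Pt y) (hne : N x ≠ N y) :
    N x ⊓ N y = ⊥ := by
  by_contra hc
  obtain ⟨z, hz, hzle⟩ := exists_pt_le hc
  have h1 := h.spr x z hx hz (hzle.trans inf_le_left)
  have h2 := h.spr y z hy hz (hzle.trans inf_le_right)
  exact hne (h1.symm.trans h2)

/-- the spread elements inside `Y` -/
abbrev T (N : Submodule F W → Submodule F W) (Y : Submodule F W) : Type :=
  {S : Submodule F W // ∃ x, Pt x ∧ x ≤ Y ∧ N x = S}

theorem card_closed [Finite F] [FiniteDimensional F W] {a : ℕ}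
    {B N D : Submodule F W → Submodule F W} (h : SG a B N D) {Y : Submodule F W}
    (hY : Cl N Y) :
    br (Nat.card F) (finrank F Y) = Nat.card (T N Y) * br (Nat.card F) a := by
  classical
  rw [← card_pts_le Y]
  have : Fintype (T N Y) := Fintype.ofFinite _
  have hsig : Nat.card (Σ S : T N Y, {p : Submodule F W // Pt p ∧ p ≤ S.1}) =
      Nat.card (T N Y) * br (Nat.card F) a := by
    rw [Nat.card_sigma]
    have : ∀ S : T N Y, Nat.card {p : Submodule F W // Pt p ∧ p ≤ S.1} = br (Nat.card F) a := by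
      rintro ⟨S, x, hx, hxY, rfl⟩
      rw [card_pts_le, h.dimN x hx]
    rw [Finset.sum_congr rfl (fun S _ => this S)]
    rw [Finset.sum_const, Finset.card_univ, smul_eq_mul, Nat.card_eq_fintype_card (α := T N Y)]
  rw [← hsig]
  refine Nat.card_congr ?_
  refine { toFun := fun p => ⟨⟨N p.1, p.1, p.2.1, p.2.2, rfl⟩, ⟨p.1, p.2.1, h.selfN _ p.2.1⟩⟩
           invFun := fun q => ⟨q.2.1, q.2.2.1, ?_⟩
           left_inv := fun p => rfl
           right_inv := ?_ }
  · obtain ⟨⟨S, x, hx, hxY, rfl⟩, ⟨p, hp, hpS⟩⟩ := q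
    exact hpS.trans (hY x hx hxY)
  · rintro ⟨⟨S, x, hx, hxY, rfl⟩, ⟨p, hp, hpS⟩⟩
    have h1 := h.spr x p hx hp hpS
    simp only [Sigma.mk.injEq]
    refine ⟨Subtype.ext h1, ?_⟩
    congr 1
    · simp [h1]
    · exact proof_irrel_heq _ _

theorem card_dual [Finite F] [FiniteDimensional F W] {a : ℕ}
    {B N D : Submodule F W → Submodule F W} (h : SG a B N D) {Y U : Submodule F W}
    (hD : ∀ w, Pt w → w ≤ Y → U ≤ D w) :
    Nat.card (T N Y) * br (Nat.card F) a ≤ br (Nat.card F) (finrank F W - finrank F U) := by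
  classical
  rw [← card_hys_ge U]
  have : Fintype (T N Y) := Fintype.ofFinite _
  have hsig : Nat.card (Σ S : T N Y, {H : Submodule F W // Hy H ∧ D S.2.choose ≤ H}) =
      Nat.card (T N Y) * br (Nat.card F) a := by
    rw [Nat.card_sigma]
    have : ∀ S : T N Y, Nat.card {H : Submodule F W // Hy H ∧ D S.2.choose ≤ H} =
        br (Nat.card F) a := by
      intro S
      have h1 := h.dimD S.2.choose S.2.choose_spec.1
      rw [card_hys_ge]
      congr 1
      omega
    rw [Finset.sum_congr rfl (fun S _ => this S)]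
    rw [Finset.sum_const, Finset.card_univ, smul_eq_mul, Nat.card_eq_fintype_card (α := T N Y)]
  rw [← hsig]
  refine Nat.card_le_card_of_injective
    (fun q : (Σ S : T N Y, {H : Submodule F W // Hy H ∧ D S.2.choose ≤ H}) =>
      (⟨q.2.1, q.2.2.1, (hD _ q.1.2.choose_spec.1 q.1.2.choose_spec.2.1).trans q.2.2.2⟩ :
        {H : Submodule F W // Hy H ∧ U ≤ H})) ?_
  rintro ⟨S, H, hH, hSH⟩ ⟨S', H', hH', hSH'⟩ he
  have he' : H = H' := congrArg Subtype.val he
  subst he'
  have hSS : S = S' := by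
    by_contra hne
    have h1 := S.2.choose_spec
    have h2 := S'.2.choose_spec
    have hne2 : N S.2.choose ≠ N S'.2.choose := by
      rw [h1.2.2, h2.2.2]
      exact fun hc => hne (Subtype.ext hc)
    have h3 := h.supD _ _ h1.1 h2.1 hne2
    exact hH.ne_top (eq_top_iff.2 (h3 ▸ sup_le hSH hSH'))
  subst hSS
  rfl

theorem two_le_card [Finite F] : 2 ≤ Nat.card F := by
  have := Finite.one_lt_card (α := F)
  omega

theorem dvd_of_br {q a m t : ℕ} (hq : 2 ≤ q) (h : br q m = t * br q a) : a ∣ m := by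
  have h1 := br_mul q m
  have h2 := br_mul q a
  have h3 : ((q : ℤ) ^ a - 1) ∣ ((q : ℤ) ^ m - 1) := by
    refine ⟨t, ?_⟩
    rw [← h1, ← h2, h]
    push_cast
    ring
  have e1 : ∀ k : ℕ, ((q ^ k - 1 : ℕ) : ℤ) = (q : ℤ) ^ k - 1 := by
    intro k
    have : 1 ≤ q ^ k := Nat.one_le_pow _ _ (by omega)
    push_cast [Nat.cast_sub this]
    ring
  rw [← e1, ← e1, Int.natCast_dvd_natCast] at h3
  have h4 := Nat.gcd_eq_left h3
  rw [Nat.pow_sub_one_gcd_pow_sub_one] at h4
  have p1 : 1 ≤ q ^ (Nat.gcd a m) := Nat.one_le_pow _ _ (by omega)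
  have p2 : 1 ≤ q ^ a := Nat.one_le_pow _ _ (by omega)
  have h5 : q ^ (Nat.gcd a m) = q ^ a := by omega
  have h6 := Nat.pow_right_injective hq h5
  rw [← h6]
  exact Nat.gcd_dvd_right a m

theorem main [Finite F] [FiniteDimensional F W] {a : ℕ}
    {B N D : Submodule F W → Submodule F W} (h : SG a B N D) {x y : Submodule F W}
    (hx : Pt x) (hy : Pt y) (hne : N x ≠ N y) : Cl N (N x ⊔ N y) := by
  obtain ⟨U, hU⟩ : ∃ U, U = D x ⊓ D y := ⟨_, rfl⟩
  have dU : finrank F U + 2 * a = finrank F W := by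
    have h1 := Submodule.finrank_sup_add_finrank_inf_eq (D x) (D y)
    rw [h.supD x y hx hy hne, finrank_top, ← hU] at h1
    have h2 := h.dimD x hx
    have h3 := h.dimD y hy
    omega
  have dN : finrank F ↥(N x ⊔ N y) = 2 * a := by
    have h1 := Submodule.finrank_sup_add_finrank_inf_eq (N x) (N y)
    rw [disj h hx hy hne, finrank_bot, h.dimN x hx, h.dimN y hy] at h1
    omega
  have inD : ∀ v u, Pt v → Pt u → u ≤ D v → N u ≤ D v := by
    intro v u hv hu huv
    refine (h.dich v u hv hu).resolve_right fun hc => ?_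
    have : u ≤ N u ⊓ D v := le_inf (h.selfN u hu) huv
    rw [hc] at this
    exact hu.ne_bot (eq_bot_iff.2 this)
  have clU : Cl N U := by
    intro u hu huU
    rw [hU] at huU ⊢
    exact le_inf (inD x u hx hu (huU.trans inf_le_left)) (inD y u hy hu (huU.trans inf_le_right))
  obtain ⟨Y, hY⟩ : ∃ Y, Y = ⨅ u : {u : Submodule F W // Pt u ∧ u ≤ U}, B u.1 := ⟨_, rfl⟩
  have memY : ∀ w, w ≤ Y ↔ ∀ u, Pt u → u ≤ U → w ≤ B u := by
    intro w
    rw [hY, le_iInf_iff]
    exact ⟨fun hw u hu huU => hw ⟨u, hu, huU⟩, fun hw u => hw u.1 u.2.1 u.2.2⟩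
  have clY : Cl N Y := by
    intro w hw hwY
    rw [memY] at hwY ⊢
    intro u hu huU
    have h1 : w ≤ D u := by
      refine h.memD u w hu hw fun u' hu' hu'N => ?_
      exact hwY u' hu' (hu'N.trans (clU u hu huU))
    exact (inD u w hu hw h1).trans (h.DB u u hu hu (h.selfN u hu))
  have UD : ∀ w, Pt w → w ≤ Y → U ≤ D w := by
    intro w hw hwY
    refine le_of_pts fun u hu huU => ?_
    refine h.memD w u hw hu fun w' hw' hw'N => ?_
    have h1 : w' ≤ Y := hw'N.trans (clY w hw hwY)
    exact h.symB u w' hu hw' ((memY w').1 h1 u hu huU)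
  have NY : ∀ v, Pt v → U ≤ D v → N v ≤ Y := by
    intro v hv hUv
    rw [memY]
    intro u hu huU
    refine le_of_pts fun z hz hzN => ?_
    exact h.symB z u hz hu ((huU.trans hUv).trans (h.DB v z hv hz hzN))
  have hle : N x ⊔ N y ≤ Y :=
    sup_le (NY x hx (by rw [hU]; exact inf_le_left)) (NY y hy (by rw [hU]; exact inf_le_right))
  have hcount := card_closed h clY
  have hcount2 := card_dual h UD
  rw [← hcount] at hcount2
  have hd : finrank F W - finrank F U = 2 * a := by omega
  rw [hd] at hcount2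
  have dY : finrank F Y ≤ 2 * a := by
    by_contra hc
    have := br_strictMono (q := Nat.card F) (by have := two_le_card (F := F); omega)
      (Nat.lt_of_not_le hc)
    omega
  have heq : N x ⊔ N y = Y := by
    refine Submodule.eq_of_le_of_finrank_le hle ?_
    rw [dN]; exact dY
  rw [heq]
  exact clY

end SP2proof

theorem sp2 : SP2 := by
  intro F _ _ W _ _ _ a B N D h
  refine ⟨fun x y z hx hy hz hzl => ?_, fun _ => ?_⟩
  · by_cases hne : N x = N y
    · rw [← hne, sup_idem] at hzl ⊢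
      rw [h.spr x z hx hz hzl]
    · exact SP2proof.main h hx hy hne z hz hzl
  · have h1 := SP2proof.card_closed (Y := (⊤ : Submodule F W)) h (fun u _ _ => le_top)
    rw [finrank_top] at h1
    exact SP2proof.dvd_of_br SP2proof.two_le_card h1

end GL4

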